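import Mathlib
import Pool.Agent.R309.HF.Sym

set_option autoImplicit false

namespace Pool.Agent.Results.MP_fcf2b0_co.HoffmanBound

open Finset

/-- A weighted `r`-graph on the vertex set `Fin n`: a family `E` of `r`-element sets and a real
weight function (only its values on the edges are used). -/
structure WGraph (n r : ℕ) where
  E : Finset (Finset (Fin n))
  card_eq : ∀ e ∈ E, e.card = r
  w : Finset (Fin n) → ℝ

variable {n r : ℕ}

/-- The polynomial form `P_{G_w}(x) = r! ∑_{e ∈ E} w(e) ∏_{i ∈ e} x_i`. -/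
noncomputable def WGraph.P (G : WGraph n r) (x : Fin n → ℝ) : ℝ :=
  (r.factorial : ℝ) * ∑ e ∈ G.E, G.w e * ∏ i ∈ e, x i

/-- The `ℓ^p` norm. -/
noncomputable def pnorm (p : ℝ) (x : Fin n → ℝ) : ℝ := (∑ i, |x i| ^ p) ^ (1 / p)

/-- The unit sphere of the `ℓ^p` norm. -/
def sphere (p : ℝ) (n : ℕ) : Set (Fin n → ℝ) := {x | pnorm p x = 1}

/-- `λ^{(p)}(G_w)`, the maximum of the polynomial form on the unit sphere. -/
noncomputable def lamMax (p : ℝ) (G : WGraph n r) : ℝ := sSup (G.P '' sphere p n)

/-- `λ^{(p)}_min(G_w)`, the minimum of the polynomial form on the unit sphere. -/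
noncomputable def lamMin (p : ℝ) (G : WGraph n r) : ℝ := sInf (G.P '' sphere p n)

/-- `G` is `k`-partite: the vertices can be split into `k` parts such that every edge has at most
one vertex in each part. -/
def KPartite (k : ℕ) (G : WGraph n r) : Prop :=
  ∃ col : Fin n → Fin k, ∀ e ∈ G.E, ∀ u ∈ e, ∀ v ∈ e, col u = col v → u = v

/-- The complete `r`-graph on `k` vertices with unit weights. -/
def complete (k r : ℕ) : WGraph k r where
  E := powersetCard r univ
  card_eq := fun _ he => (mem_powersetCard.1 he).2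
  w := fun _ => 1

/-! ### Auxiliary facts -/

open Pool.Agent.R309.HF

lemma P_eq (G : WGraph n r) (x : Fin n → ℝ) :
    G.P x = Fc r (fun S => if S ∈ G.E then (r.factorial : ℝ) * G.w S else 0) x := by
  unfold WGraph.P Fc
  rw [mul_sum]
  have hsub : G.E ⊆ powersetCard r (univ : Finset (Fin n)) := fun e he =>
    mem_powersetCard.2 ⟨subset_univ _, G.card_eq e he⟩
  rw [← sum_subset hsub]
  · refine sum_congr rfl fun e he => ?_
    simp only [if_pos he]
    ring
  · intro e _ he
    simp only [if_neg he, zero_mul]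

lemma mem_sphere {p : ℝ} (hp : 1 ≤ p) (x : Fin n → ℝ) : x ∈ sphere p n ↔ N p x = 1 := by
  have hp0 : 0 < p := by linarith
  change (N p x) ^ (1 / p) = 1 ↔ _
  constructor
  · intro h
    have h2 : ((N p x) ^ (1 / p)) ^ p = N p x := by
      rw [← Real.rpow_mul (N_nonneg p x), one_div, inv_mul_cancel₀ hp0.ne', Real.rpow_one]
    rw [← h2, h, Real.one_rpow]
  · intro h
    rw [h, Real.one_rpow]

lemma continuous_N {p : ℝ} (hp : 1 ≤ p) : Continuous (fun x : Fin n → ℝ => N p x) := by
  unfold N
  refine continuous_finsetSum _ fun i _ => ?_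
  exact (Real.continuous_rpow_const (by linarith)).comp (continuous_abs.comp (continuous_apply i))

lemma sphere_compact {p : ℝ} (hp : 1 ≤ p) : IsCompact (sphere p n) := by
  have hp0 : 0 < p := by linarith
  have heq : sphere p n = {x : Fin n → ℝ | N p x = 1} := by
    ext x; exact mem_sphere hp x
  rw [heq]
  have hcl : IsClosed {x : Fin n → ℝ | N p x = 1} := isClosed_eq (continuous_N hp) continuous_const
  refine (isCompact_Icc (a := fun _ : Fin n => (-1:ℝ)) (b := fun _ => 1)).of_isClosed_subset hcl ?_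
  intro x hx
  have h1 : ∀ i, |x i| ≤ 1 := by
    intro i
    have h2 : |x i| ^ p ≤ 1 := by
      have : N p x = 1 := hx
      rw [← this]
      exact single_le_sum (f := fun i => |x i| ^ p)
        (fun j _ => Real.rpow_nonneg (abs_nonneg _) _) (mem_univ i)
    by_contra h3
    push Not at h3
    have := Real.one_lt_rpow h3 hp0
    linarith
  exact ⟨fun i => (abs_le.1 (h1 i)).1, fun i => (abs_le.1 (h1 i)).2⟩

lemma continuous_P (G : WGraph n r) : Continuous G.P := by
  unfold WGraph.P
  refine continuous_const.mul (continuous_finsetSum _ fun e _ => ?_)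
  exact continuous_const.mul (continuous_finsetProd _ fun i _ => continuous_apply i)

lemma uniform_mem {p : ℝ} (hp : 1 ≤ p) {k : ℕ} (hk : 0 < k) :
    (fun _ : Fin k => (1 / (k:ℝ)) ^ (1 / p)) ∈ sphere p k := by
  rw [mem_sphere hp]
  unfold N
  have hp0 : 0 < p := by linarith
  have hk' : (0:ℝ) < k := by exact_mod_cast hk
  have : |(1 / (k:ℝ)) ^ (1 / p)| ^ p = 1 / k := by
    rw [abs_of_nonneg (by positivity), ← Real.rpow_mul (by positivity), one_div p,
      inv_mul_cancel₀ hp0.ne', Real.rpow_one]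
  rw [sum_const, this, card_univ, Fintype.card_fin, nsmul_eq_mul]
  field_simp

lemma attained (hr : 1 ≤ r) {p : ℝ} (hp : 1 ≤ p) (G : WGraph n r) (hw : ∃ e ∈ G.E, G.w e ≠ 0) :
    IsGreatest (G.P '' sphere p n) (lamMax p G) ∧ IsLeast (G.P '' sphere p n) (lamMin p G) := by
  obtain ⟨e, he, -⟩ := hw
  have hn : 0 < n := by
    have h1 := G.card_eq e he
    have h2 := card_le_univ e
    rw [Fintype.card_fin] at h2
    omega
  have hne : (G.P '' sphere p n).Nonempty := ⟨_, ⟨_, uniform_mem hp hn, rfl⟩⟩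
  have hc : IsCompact (G.P '' sphere p n) := (sphere_compact hp).image (continuous_P G)
  exact ⟨hc.isGreatest_sSup hne, hc.isLeast_sInf hne⟩

lemma neg_pos_values (hr : 1 ≤ r) {p : ℝ} (hp : 1 ≤ p) (G : WGraph n r)
    (hw : ∃ e ∈ G.E, G.w e ≠ 0) : lamMin p G < 0 ∧ 0 < lamMax p G := by
  obtain ⟨hmax, hmin⟩ := attained hr hp G hw
  obtain ⟨e, he, hwe⟩ := hw
  have hp0 : 0 < p := by linarith
  have hr0 : (0:ℝ) < r := by exact_mod_cast hr
  set t : ℝ := (1 / (r:ℝ)) ^ (1 / p) with ht
  have htpos : 0 < t := by positivity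
  have htp : t ^ p = 1 / r := by
    rw [ht, ← Real.rpow_mul (by positivity), one_div p, inv_mul_cancel₀ hp0.ne', Real.rpow_one]
  obtain ⟨i₀, hi₀⟩ : e.Nonempty := card_pos.1 (by rw [G.card_eq e he]; omega)
  -- general test vector
  have key : ∀ ε : ℝ, |ε| = 1 → ∃ x ∈ sphere p n,
      G.P x = (r.factorial : ℝ) * G.w e * (ε * t ^ r) := by
    intro ε hε
    set y : Fin n → ℝ := fun i => if i = i₀ then ε else 1 with hy
    have hy1 : ∀ i, |y i| = 1 := by
      intro i; simp only [hy]; split_ifs <;> simp [hε]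
    refine ⟨fun i => t * (if i ∈ e then y i else 0), ?_, ?_⟩
    · rw [mem_sphere hp]
      have h1 := N_ind hp0 e y hy1
      unfold N at h1 ⊢
      simp_rw [abs_mul, Real.mul_rpow (abs_nonneg t) (abs_nonneg _)]
      rw [← mul_sum, h1, abs_of_pos htpos, htp, G.card_eq e he]
      field_simp
    · rw [P_eq, Fc_smul, Fc_coef _ e (G.card_eq e he)]
      simp only [if_pos he]
      have hprod : ∏ i ∈ e, y i = ε := by
        simp only [hy]
        rw [prod_ite_eq' e i₀ (fun _ => ε)]; simp [hi₀]
      rw [hprod]; ring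
  have hfac : (0:ℝ) < (r.factorial : ℝ) := by exact_mod_cast Nat.factorial_pos r
  have htr : 0 < t ^ r := by positivity
  obtain ⟨x, hx, hPx⟩ := key 1 (by simp)
  obtain ⟨y, hy, hPy⟩ := key (-1) (by simp)
  have hx1 := hmin.2 ⟨x, hx, rfl⟩
  have hx2 := hmax.2 ⟨x, hx, rfl⟩
  have hy1 := hmin.2 ⟨y, hy, rfl⟩
  have hy2 := hmax.2 ⟨y, hy, rfl⟩
  rw [hPx] at hx1 hx2
  rw [hPy] at hy1 hy2
  have hA : (r.factorial : ℝ) * G.w e * (1 * t ^ r) ≠ 0 := by
    have := hfac.ne'; have := htr.ne'
    positivity
  have hB : (r.factorial : ℝ) * G.w e * (-1 * t ^ r) = -((r.factorial : ℝ) * G.w e * (1 * t ^ r)) := by ring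
  rw [hB] at hy1 hy2
  rcases lt_or_gt_of_ne hA with h | h
  · constructor <;> linarith
  · constructor <;> linarith

/-- the minimum on the sphere gives a lower bound everywhere -/
lemma lower (hr : 1 ≤ r) {p : ℝ} (hp : 1 ≤ p) (G : WGraph n r) (hw : ∃ e ∈ G.E, G.w e ≠ 0)
    (z : Fin n → ℝ) : -((-lamMin p G) * (N p z) ^ ((r:ℝ) / p)) ≤ G.P z := by
  have hp0 : 0 < p := by linarith
  have hr0 : (0:ℝ) < r := by exact_mod_cast hr
  obtain ⟨-, hmin⟩ := attained hr hp G hw
  rcases (N_nonneg p z).eq_or_lt with h0 | h0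
  · -- z = 0
    have hz : z = fun i => (0:ℝ) * z i := by
      funext i
      have h1 : |z i| ^ p ≤ 0 := by
        rw [h0]
        exact single_le_sum (f := fun i => |z i| ^ p)
          (fun j _ => Real.rpow_nonneg (abs_nonneg _) _) (mem_univ i)
      have h2 : |z i| ^ p = 0 := le_antisymm h1 (Real.rpow_nonneg (abs_nonneg _) _)
      have h3 : |z i| = 0 := by
        by_contra h4
        have : 0 < |z i| := lt_of_le_of_ne (abs_nonneg _) (Ne.symm h4)
        have := Real.rpow_pos_of_pos this p
        linarith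
      rw [abs_eq_zero] at h3
      rw [h3]; ring
    rw [← h0, Real.zero_rpow (by positivity), mul_zero, neg_zero, hz, P_eq, Fc_smul,
      zero_pow (by omega), zero_mul]
  · set t : ℝ := (N p z) ^ (1 / p) with ht
    have htpos : 0 < t := Real.rpow_pos_of_pos h0 _
    have htp : t ^ p = N p z := by
      rw [ht, ← Real.rpow_mul h0.le, one_div, inv_mul_cancel₀ hp0.ne', Real.rpow_one]
    have htr : t ^ r = (N p z) ^ ((r:ℝ) / p) := by
      rw [ht, ← Real.rpow_natCast, ← Real.rpow_mul h0.le]
      congr 1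
      field_simp
    have hmem : (fun i => z i / t) ∈ sphere p n := by
      rw [mem_sphere hp]
      unfold N
      simp_rw [abs_div, abs_of_pos htpos, Real.div_rpow (abs_nonneg _) htpos.le]
      rw [← sum_div, htp]
      exact div_self h0.ne'
    have h1 := hmin.2 ⟨_, hmem, rfl⟩
    have hz : z = fun i => t * (z i / t) := by
      funext i; field_simp
    have h2 : G.P z = t ^ r * G.P (fun i => z i / t) := by
      conv_lhs => rw [hz]
      rw [P_eq, P_eq, Fc_smul]
    rw [h2, ← htr]
    have h3 : 0 < t ^ r := by positivity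
    nlinarith

/-- reduction to `k` vertices -/
lemma reduction (hr : 1 ≤ r) {k : ℕ} {p : ℝ} (hp : 1 ≤ p) (G : WGraph n r)
    (hw : ∃ e ∈ G.E, G.w e ≠ 0) (hG : KPartite k G) (x : Fin n → ℝ) (hx : x ∈ sphere p n) :
    ∃ (a : Fin k → ℝ) (c : Finset (Fin k) → ℝ), (∀ i, 0 ≤ a i) ∧ ∑ i, a i = 1 ∧
      (∀ z, -((-lamMin p G) * (N p z) ^ ((r:ℝ) / p)) ≤ Fc r c z) ∧
      G.P x = Fc r c (fun i => (a i) ^ (1 / p)) := by
  classical
  have hp0 : 0 < p := by linarith
  have hr0 : (0:ℝ) < r := by exact_mod_cast hr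
  obtain ⟨col, hcol⟩ := hG
  have hNx : N p x = 1 := (mem_sphere hp x).1 hx
  set a : Fin k → ℝ := fun i => ∑ v ∈ univ.filter (fun v => col v = i), |x v| ^ p with ha
  have ha0 : ∀ i, 0 ≤ a i := fun i => sum_nonneg fun _ _ => Real.rpow_nonneg (abs_nonneg _) _
  set m : Fin k → ℝ := fun i => (a i) ^ (1 / p) with hm
  have hm0 : ∀ i, 0 ≤ m i := fun i => Real.rpow_nonneg (ha0 i) _
  have hmp : ∀ i, (m i) ^ p = a i := by
    intro i
    rw [hm]; simp only
    rw [← Real.rpow_mul (ha0 i), one_div, inv_mul_cancel₀ hp0.ne', Real.rpow_one]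
  set u : Fin n → ℝ := fun v => x v / m (col v) with hu
  have hmu : ∀ v, m (col v) * u v = x v := by
    intro v
    rcases (hm0 (col v)).eq_or_lt with h | h
    · have h1 : a (col v) = 0 := by rw [← hmp, ← h, Real.zero_rpow hp0.ne']
      have h2 : |x v| ^ p ≤ 0 := by
        rw [← h1]
        exact single_le_sum (f := fun v => |x v| ^ p)
          (fun j _ => Real.rpow_nonneg (abs_nonneg _) _) (by simp)
      have h3 : |x v| = 0 := by
        by_contra h4
        have : 0 < |x v| := lt_of_le_of_ne (abs_nonneg _) (Ne.symm h4)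
        have := Real.rpow_pos_of_pos this p
        linarith
      rw [abs_eq_zero] at h3
      rw [← h, h3, zero_mul]
    · simp only [hu]; field_simp
  set c : Finset (Fin k) → ℝ := fun S =>
    ∑ e ∈ G.E with e.image col = S, (r.factorial : ℝ) * G.w e * ∏ v ∈ e, u v with hc
  have hFc : ∀ z : Fin k → ℝ, Fc r c z = G.P (fun v => z (col v) * u v) := by
    intro z
    unfold Fc WGraph.P
    have h1 : ∀ S ∈ powersetCard r (univ : Finset (Fin k)), c S * ∏ i ∈ S, z i
        = ∑ e ∈ G.E with e.image col = S,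
          (r.factorial : ℝ) * (G.w e * ∏ v ∈ e, (z (col v) * u v)) := by
      intro S _
      rw [hc]; simp only
      rw [sum_mul]
      refine sum_congr rfl fun e he => ?_
      rw [mem_filter] at he
      rw [← he.2, prod_image (fun u hu v hv h => hcol e he.1 u hu v hv h), prod_mul_distrib]
      ring
    rw [sum_congr rfl h1, sum_fiberwise_of_maps_to, mul_sum]
    intro e he
    rw [mem_powersetCard]
    refine ⟨subset_univ _, ?_⟩
    rw [card_image_of_injOn (fun u hu v hv h => hcol e he u hu v hv h), G.card_eq e he]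
  refine ⟨a, c, ha0, ?_, ?_, ?_⟩
  · rw [ha]
    have := sum_fiberwise_of_maps_to (s := (univ : Finset (Fin n))) (t := (univ : Finset (Fin k)))
      (g := col) (fun v _ => mem_univ _) (fun v => |x v| ^ p)
    rw [this]
    exact hNx
  · intro z
    rw [hFc]
    refine le_trans ?_ (lower hr hp G hw _)
    have hN : N p (fun v => z (col v) * u v) ≤ N p z := by
      unfold N
      rw [← sum_fiberwise_of_maps_to (s := (univ : Finset (Fin n))) (t := (univ : Finset (Fin k)))
        (g := col) (fun v _ => mem_univ _) (fun v => |z (col v) * u v| ^ p)]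
      refine sum_le_sum fun i _ => ?_
      have h1 : ∑ v ∈ univ.filter (fun v => col v = i), |z (col v) * u v| ^ p
          = |z i| ^ p * ∑ v ∈ univ.filter (fun v => col v = i), |u v| ^ p := by
        rw [mul_sum]
        refine sum_congr rfl fun v hv => ?_
        rw [mem_filter] at hv
        rw [hv.2, abs_mul, Real.mul_rpow (abs_nonneg _) (abs_nonneg _)]
      have h2 : ∑ v ∈ univ.filter (fun v => col v = i), |u v| ^ p ≤ 1 := by
        have h3 : ∑ v ∈ univ.filter (fun v => col v = i), |u v| ^ p = a i / (m i) ^ p := by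
          rw [ha]; simp only
          rw [sum_div]
          refine sum_congr rfl fun v hv => ?_
          rw [mem_filter] at hv
          rw [hu]; simp only
          rw [hv.2, abs_div, abs_of_nonneg (hm0 i), Real.div_rpow (abs_nonneg _) (hm0 i)]
        rw [h3, hmp]
        exact div_self_le_one _
      rw [h1]
      have h4 : 0 ≤ |z i| ^ p := Real.rpow_nonneg (abs_nonneg _) _
      nlinarith
    have h5 : (N p (fun v => z (col v) * u v)) ^ ((r:ℝ) / p) ≤ (N p z) ^ ((r:ℝ) / p) :=
      Real.rpow_le_rpow (N_nonneg _ _) hN (by positivity)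
    have h6 := (neg_pos_values hr hp G hw).1
    nlinarith
  · rw [hFc]
    congr 1
    funext v
    exact (hmu v).symm

lemma complete_P {k : ℕ} (z : Fin k → ℝ) :
    (complete k r).P z = (r.factorial : ℝ) * Fc r (fun _ => 1) z := rfl

/-- **MP_fcf2b0_co, Q1** (positive answer, and for every real `p ≥ 1`): for all `r ≥ 2`, `k ≥ r` and
every weighted `k`-partite `r`-graph `G` whose weight is not identically zero, the maximum and the
minimum of the polynomial form on the unit sphere of `ℓ^p` are attained, the minimum is negative,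
and `λ^{(p)}(G)/λ^{(p)}_min(G) ≥ λ^{(p)}(K_k^r)/λ^{(p)}_min(K_k^r)`. -/
theorem result (r k n : ℕ) (hr : 2 ≤ r) (hk : r ≤ k) (p : ℝ) (hp : 1 ≤ p)
    (G : WGraph n r) (hG : KPartite k G) (hw : ∃ e ∈ G.E, G.w e ≠ 0) :
    IsGreatest (G.P '' sphere p n) (lamMax p G) ∧ IsLeast (G.P '' sphere p n) (lamMin p G) ∧
    lamMin p G < 0 ∧
    lamMax p G / lamMin p G ≥ lamMax p (complete k r) / lamMin p (complete k r) := by
  have hr1 : 1 ≤ r := by omega
  have hk0 : 0 < k := by omega
  have hp0 : 0 < p := by linarith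
  obtain ⟨hmax, hmin⟩ := attained hr1 hp G hw
  obtain ⟨hneg, hpos⟩ := neg_pos_values hr1 hp G hw
  have hwK : ∃ e ∈ (complete k r).E, (complete k r).w e ≠ 0 := by
    obtain ⟨S, hS⟩ : (powersetCard r (univ : Finset (Fin k))).Nonempty := by
      rw [powersetCard_nonempty]; simpa using hk
    exact ⟨S, hS, one_ne_zero⟩
  obtain ⟨hmaxK, hminK⟩ := attained hr1 hp (complete k r) hwK
  obtain ⟨hnegK, hposK⟩ := neg_pos_values hr1 hp (complete k r) hwK
  refine ⟨hmax, hmin, hneg, ?_⟩
  have hfac : (0:ℝ) < (r.factorial : ℝ) := by exact_mod_cast Nat.factorial_pos r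
  -- the main bound
  have hbound : lamMax p G * (-lamMin p (complete k r)) ≤ (-lamMin p G) * lamMax p (complete k r) := by
    obtain ⟨x, hx, hPx⟩ := hmax.1
    obtain ⟨a, c, ha0, hasum, hfeas, hPc⟩ := reduction hr1 hp G hw hG x hx
    obtain ⟨c', hfeas', hv'⟩ := uniformize hk0 hr1 hp (by linarith : 0 ≤ -lamMin p G)
      (by positivity : 0 ≤ (r:ℝ) / p) a ha0 hasum c hfeas hPc.le
    obtain ⟨W, hW1, hW2⟩ := symmetrize hk c' hfeas' hv'
    obtain ⟨z₀, hz₀, hPz₀⟩ := hminK.1
    have h1 := hW1 z₀
    rw [(mem_sphere hp z₀).1 hz₀, Real.one_rpow, mul_one] at h1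
    rw [complete_P] at hPz₀
    have h2 := hmaxK.2 ⟨_, uniform_mem hp hk0, rfl⟩
    rw [complete_P] at h2
    set U := Fc r (fun _ => (1:ℝ)) (fun _ : Fin k => (1 / (k:ℝ)) ^ (1 / p)) with hU
    rw [hPx] at hW2
    -- `U > 0`
    have hUpos : 0 < U := by
      rw [hU]
      unfold Fc
      apply sum_pos
      · intro S _
        have : (0:ℝ) < k := by exact_mod_cast hk0
        positivity
      · rw [powersetCard_nonempty]; simpa using hk
    have hWpos : 0 < W := by
      by_contra h
      push Not at h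
      have := mul_nonpos_of_nonpos_of_nonneg h hUpos.le
      linarith
    set F0 := Fc r (fun _ => (1:ℝ)) z₀ with hF0
    -- lamMin K = r! F0
    have h3 : W * (-lamMin p (complete k r)) ≤ (r.factorial : ℝ) * (-lamMin p G) := by
      rw [← hPz₀]
      have : W * (-((r.factorial : ℝ) * F0)) = (r.factorial : ℝ) * (-(W * F0)) := by ring
      rw [this]
      apply mul_le_mul_of_nonneg_left _ hfac.le
      linarith
    have h4 : lamMax p G * (r.factorial : ℝ) ≤ W * lamMax p (complete k r) := by
      calc lamMax p G * (r.factorial : ℝ) ≤ W * U * (r.factorial : ℝ) :=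
            mul_le_mul_of_nonneg_right hW2 hfac.le
        _ = W * ((r.factorial : ℝ) * U) := by ring
        _ ≤ W * lamMax p (complete k r) := mul_le_mul_of_nonneg_left h2 hWpos.le
    have h5 : lamMax p G * (-lamMin p (complete k r)) * (r.factorial : ℝ)
        ≤ (-lamMin p G) * lamMax p (complete k r) * (r.factorial : ℝ) := by
      calc lamMax p G * (-lamMin p (complete k r)) * (r.factorial : ℝ)
          = lamMax p G * (r.factorial : ℝ) * (-lamMin p (complete k r)) := by ring
        _ ≤ W * lamMax p (complete k r) * (-lamMin p (complete k r)) :=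
            mul_le_mul_of_nonneg_right h4 (by linarith)
        _ = (W * (-lamMin p (complete k r))) * lamMax p (complete k r) := by ring
        _ ≤ ((r.factorial : ℝ) * (-lamMin p G)) * lamMax p (complete k r) :=
            mul_le_mul_of_nonneg_right h3 hposK.le
        _ = _ := by ring
    exact le_of_mul_le_mul_right h5 hfac
  rw [ge_iff_le, ← neg_div_neg_eq (lamMax p (complete k r)), ← neg_div_neg_eq (lamMax p G),
    div_le_div_iff₀ (by linarith) (by linarith)]
  linarith

end Pool.Agent.Results.MP_fcf2b0_co.HoffmanBound
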